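import Mathlib

/-!
Paths as lists of vertices, their edges and weights, and the two rerouting moves.
-/

namespace Pool.Agent.Lib.MP_0a7691_co.CE

variable {V : Type*}

/-- the edges along a list of vertices -/
def eds : List V → List (Sym2 V)
  | x :: y :: l => s(x, y) :: eds (y :: l)
  | _ => []

@[simp] lemma eds_nil : eds ([] : List V) = [] := rfl
@[simp] lemma eds_single (x : V) : eds [x] = [] := rfl
@[simp] lemma eds_cons2 (x y : V) (l : List V) : eds (x :: y :: l) = s(x, y) :: eds (y :: l) := rfl

lemma eds_join : ∀ (A B : List V) (a b : V), A.getLast? = some a → B.head? = some b →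
    eds (A ++ B) = eds A ++ s(a, b) :: eds B
  | [], _, _, _, h, _ => by simp at h
  | [x], B, a, b, h, hb => by
    obtain ⟨B', rfl⟩ := List.head?_eq_some_iff.1 hb
    simp at h
    subst h
    simp
  | x :: y :: l, B, a, b, h, hb => by
    have := eds_join (y :: l) B a b (by simpa [List.getLast?_cons_cons] using h) hb
    simp only [List.cons_append, eds_cons2] at this ⊢
    rw [this]

lemma eds_reverse : ∀ L : List V, eds L.reverse = (eds L).reverse
  | [] => by simp
  | [x] => by simp
  | x :: y :: l => by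
    have ih := eds_reverse (y :: l)
    have h1 : (x :: y :: l).reverse = (y :: l).reverse ++ [x] := by simp
    rw [h1, eds_join (y :: l).reverse [x] y x (by simp) (by simp), ih]
    simp [Sym2.eq_swap]

lemma eds_length : ∀ L : List V, (eds L).length = L.length - 1
  | [] => by simp
  | [x] => by simp
  | x :: y :: l => by
    have ih := eds_length (y :: l)
    simp at ih ⊢
    omega

/-- `y` follows `x` on the list -/
def Dt (L : List V) (x y : V) : Prop := ∃ A B, L = A ++ x :: y :: B

lemma Dt.mem_left {L : List V} {x y : V} (h : Dt L x y) : x ∈ L := by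
  obtain ⟨A, B, rfl⟩ := h
  simp

lemma Dt.mem_right {L : List V} {x y : V} (h : Dt L x y) : y ∈ L := by
  obtain ⟨A, B, rfl⟩ := h
  simp

lemma eds_dt (A B : List V) (x y : V) :
    eds (A ++ x :: y :: B) = eds (A ++ [x]) ++ s(x, y) :: eds (y :: B) := by
  have := eds_join (A ++ [x]) (y :: B) x y (by simp) (by simp)
  simpa using this

lemma Dt.mem_eds {L : List V} {x y : V} (h : Dt L x y) : s(x, y) ∈ eds L := by
  obtain ⟨A, B, rfl⟩ := h
  rw [eds_dt]
  simp

lemma dt_of_mem_eds : ∀ (L : List V) (a b : V), s(a, b) ∈ eds L → Dt L a b ∨ Dt L b a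
  | [], _, _, h => by simp at h
  | [x], _, _, h => by simp at h
  | x :: y :: l, a, b, h => by
    rw [eds_cons2, List.mem_cons] at h
    rcases h with h | h
    · rcases Sym2.eq_iff.1 h with ⟨rfl, rfl⟩ | ⟨rfl, rfl⟩
      · exact Or.inl ⟨[], l, rfl⟩
      · exact Or.inr ⟨[], l, rfl⟩
    · rcases dt_of_mem_eds (y :: l) a b h with ⟨A, B, h⟩ | ⟨A, B, h⟩
      · exact Or.inl ⟨x :: A, B, by rw [h]; rfl⟩
      · exact Or.inr ⟨x :: A, B, by rw [h]; rfl⟩

lemma dt_split {L : List V} {x x' y y' : V} (h1 : Dt L x x') (h2 : Dt L y y') (hxy : x ≠ y) :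
    (∃ A M C, L = A ++ x :: (M ++ y' :: C) ∧ M.head? = some x' ∧ M.getLast? = some y) ∨
    (∃ A M C, L = A ++ y :: (M ++ x' :: C) ∧ M.head? = some y' ∧ M.getLast? = some x) := by
  obtain ⟨A, B, rfl⟩ := h1
  obtain ⟨A', B', h⟩ := h2
  rcases List.append_eq_append_iff.1 h with ⟨a, h3, h4⟩ | ⟨a, h3, h4⟩
  · cases a with
    | nil => simp at h4; exact absurd h4.1 hxy
    | cons z a =>
      simp only [List.cons_append, List.cons.injEq] at h4
      refine Or.inl ⟨A, a ++ [y], B', by simp [h4.2], ?_, by simp⟩
      have := congrArg List.head? h4.2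
      cases a <;> simp_all
  · cases a with
    | nil => simp at h4; exact absurd h4.1.symm hxy
    | cons z a =>
      simp only [List.cons_append, List.cons.injEq] at h4
      refine Or.inr ⟨A', a ++ [x], B, by simp [h3, h4.1], ?_, by simp⟩
      have := congrArg List.head? h4.2
      cases a <;> simp_all

lemma dt_pred_unique {L : List V} (hL : L.Nodup) {x y z : V} (h1 : Dt L x z) (h2 : Dt L y z) :
    x = y := by
  by_contra hxy
  rcases dt_split h1 h2 hxy with ⟨A, M, C, rfl, hM, -⟩ | ⟨A, M, C, rfl, hM, -⟩ <;>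
  · obtain ⟨M', rfl⟩ := List.head?_eq_some_iff.1 hM
    simp [List.nodup_append] at hL

lemma dt_asymm {L : List V} (hL : L.Nodup) {x y : V} (h1 : Dt L x y) (h2 : Dt L y x) : False := by
  have hxy : x ≠ y := by
    rintro rfl
    obtain ⟨A, B, rfl⟩ := h1
    simp [List.nodup_append] at hL
  rcases dt_split h1 h2 hxy with ⟨A, M, C, rfl, -, -⟩ | ⟨A, M, C, rfl, -, -⟩ <;>
  · simp [List.nodup_append] at hL

lemma dt_exists {L : List V} {x t : V} (hx : x ∈ L) (ht : L.getLast? = some t) (hxt : x ≠ t) :
    ∃ y, Dt L x y := by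
  obtain ⟨A, B, rfl⟩ := List.append_of_mem hx
  cases B with
  | nil => simp at ht; exact absurd ht hxt
  | cons y B => exact ⟨y, A, B, rfl⟩

/-- `L` lists the vertices of a path of `G` from `s` to `t` -/
structure Pth (G : SimpleGraph V) (s t : V) (L : List V) : Prop where
  nodup : L.Nodup
  adj : ∀ e ∈ eds L, e ∈ G.edgeSet
  head : L.head? = some s
  last : L.getLast? = some t

variable {G : SimpleGraph V}

lemma Pth.head_mem {s t : V} {L : List V} (h : Pth G s t L) : s ∈ L :=
  List.mem_of_mem_head? h.head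

lemma Pth.last_mem {s t : V} {L : List V} (h : Pth G s t L) : t ∈ L :=
  List.mem_of_mem_getLast? h.last

lemma Pth.single (x : V) : Pth G x x [x] := ⟨by simp, by simp, by simp, by simp⟩

lemma Pth.reverse {s t : V} {L : List V} (h : Pth G s t L) : Pth G t s L.reverse :=
  ⟨List.nodup_reverse.2 h.nodup, fun e he => h.adj e (by simpa [eds_reverse] using he),
    by simpa using h.last, by simpa using h.head⟩

lemma Pth.join {s a b t : V} {A B : List V} (hA : Pth G s a A) (hB : Pth G b t B)
    (hab : G.Adj a b) (hd : ∀ v ∈ A, v ∉ B) : Pth G s t (A ++ B) := by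
  refine ⟨?_, ?_, ?_, ?_⟩
  · exact List.nodup_append.2 ⟨hA.nodup, hB.nodup, fun a ha b hb hab => hd a ha (hab ▸ hb)⟩
  · intro e he
    rw [eds_join A B a b hA.last hB.head] at he
    simp only [List.mem_append, List.mem_cons] at he
    rcases he with he | rfl | he
    · exact hA.adj e he
    · exact hab
    · exact hB.adj e he
  · simp [hA.head]
  · simp [hB.last]

lemma Pth.split {s t a b : V} {A B : List V} (h : Pth G s t (A ++ B))
    (ha : A.getLast? = some a) (hb : B.head? = some b) :
    Pth G s a A ∧ Pth G b t B ∧ G.Adj a b ∧ ∀ v ∈ A, v ∉ B := by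
  have hn := List.nodup_append.1 h.nodup
  have he := h.adj
  rw [eds_join A B a b ha hb] at he
  refine ⟨⟨hn.1, fun e h' => he e (by simp [h']), ?_, ha⟩,
    ⟨hn.2.1, fun e h' => he e (by simp [h']), hb, ?_⟩, he s(a, b) (by simp),
    fun v hv hv' => hn.2.2 v hv v hv' rfl⟩
  · have := h.head
    cases A with
    | nil => simp at ha
    | cons x A => simpa using this
  · have := h.last
    obtain ⟨B', rfl⟩ := List.head?_eq_some_iff.1 hb
    simpa [List.getLast?_append, List.getLast?_cons] using this

/-- the weight of a list: the sum of the weights of its edges -/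
def wt (w : Sym2 V → ZMod 2) (L : List V) : ZMod 2 := ((eds L).map w).sum

lemma wt_join (w : Sym2 V → ZMod 2) {A B : List V} {a b : V} (ha : A.getLast? = some a)
    (hb : B.head? = some b) : wt w (A ++ B) = wt w A + w s(a, b) + wt w B := by
  simp [wt, eds_join A B a b ha hb, add_assoc]

@[simp] lemma wt_single (w : Sym2 V → ZMod 2) (x : V) : wt w [x] = 0 := by simp [wt]

lemma wt_reverse (w : Sym2 V → ZMod 2) (L : List V) : wt w L.reverse = wt w L := by
  simp [wt, eds_reverse, List.sum_reverse]

lemma wt_add_const (w : Sym2 V → ZMod 2) (t : ZMod 2) (L : List V) :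
    wt (fun e => w e + t) L = wt w L + ((L.length - 1 : ℕ) : ZMod 2) * t := by
  rw [← eds_length, wt, wt]
  induction eds L with
  | nil => simp
  | cons e l ih => simp only [List.map_cons, List.sum_cons, ih, List.length_cons]; push_cast; ring

/-- inserting a path `R` between two consecutive vertices -/
lemma insertion {s t x y r r' : V} {L R : List V} (hL : Pth G s t L) (hd : Dt L x y)
    (hR : Pth G r r' R) (hLR : ∀ v ∈ R, v ∉ L) (h1 : G.Adj x r) (h2 : G.Adj r' y) :
    ∃ L', Pth G s t L' ∧ (∀ v, v ∈ L' ↔ v ∈ L ∨ v ∈ R) ∧ L'.length = L.length + R.length ∧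
      (∀ e ∈ eds L, e ≠ s(x, y) → e ∈ eds L') ∧
      ∀ w, wt w L' + w s(x, y) = wt w L + w s(x, r) + wt w R + w s(r', y) := by
  obtain ⟨A, C, rfl⟩ := hd
  have e0 : A ++ x :: y :: C = (A ++ [x]) ++ (y :: C) := by simp
  rw [e0] at hL hLR ⊢
  have hx : (A ++ [x]).getLast? = some x := by simp
  have hy : (y :: C).head? = some y := by simp
  generalize A ++ [x] = A' at *
  generalize y :: C = C' at *
  obtain ⟨hA, hC, -, hAC⟩ := hL.split hx hy
  have hRC : Pth G r t (R ++ C') := hR.join hC h2 fun v hv hv' => hLR v hv (by simp [hv'])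
  refine ⟨A' ++ (R ++ C'), hA.join hRC h1 ?_, ?_, ?_, ?_, ?_⟩
  · intro v hv hv'
    rcases List.mem_append.1 hv' with h | h
    · exact hLR v h (by simp [hv])
    · exact hAC v hv h
  · intro v
    simp only [List.mem_append]
    tauto
  · simp only [List.length_append]
    omega
  · intro e he hne
    rw [eds_join _ _ _ _ hx hy] at he
    rw [eds_join _ _ _ _ hx hRC.head, eds_join _ _ _ _ hR.last hy]
    simp only [List.mem_append, List.mem_cons] at he ⊢
    tauto
  · intro w
    rw [wt_join w hx hRC.head, wt_join w hR.last hy, wt_join w hx hy]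
    ring

/-- the rerouting move of Chvatal and Erdos -/
lemma reroute {s t x x' y y' r r' : V} {A M C R : List V}
    (hL : Pth G s t (A ++ x :: (M ++ y' :: C))) (hM1 : M.head? = some x')
    (hM2 : M.getLast? = some y)
    (hR : Pth G r r' R) (hLR : ∀ v ∈ R, v ∉ A ++ x :: (M ++ y' :: C)) (h1 : G.Adj x r)
    (h2 : G.Adj r' y) (h3 : G.Adj x' y') :
    ∃ L', Pth G s t L' ∧ (∀ v, v ∈ L' ↔ v ∈ A ++ x :: (M ++ y' :: C) ∨ v ∈ R) ∧
      L'.length = (A ++ x :: (M ++ y' :: C)).length + R.length ∧
      (∀ e ∈ eds (A ++ x :: (M ++ y' :: C)), e ≠ s(x, x') → e ≠ s(y, y') → e ∈ eds L') ∧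
      ∀ w, wt w L' + w s(x, x') + w s(y, y') =
        wt w (A ++ x :: (M ++ y' :: C)) + w s(x, r) + wt w R + w s(r', y) + w s(x', y') := by
  have e0 : A ++ x :: (M ++ y' :: C) = (A ++ [x]) ++ (M ++ y' :: C) := by simp
  rw [e0] at hL hLR ⊢
  have hx : (A ++ [x]).getLast? = some x := by simp
  have hy : (y' :: C).head? = some y' := by simp
  generalize A ++ [x] = A' at *
  generalize y' :: C = C' at *
  have hMC : (M ++ C').head? = some x' := by simp [hM1]
  obtain ⟨hA, hB, -, hAB⟩ := hL.split hx hMC
  obtain ⟨hM, hC, -, hMC'⟩ := hB.split hM2 hy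
  have h4 : Pth G y t (M.reverse ++ C') :=
    hM.reverse.join hC h3 fun v hv => hMC' v (by simpa using hv)
  have h5 : Pth G r t (R ++ (M.reverse ++ C')) :=
    hR.join h4 h2 fun v hv hv' => hLR v hv (by simp at hv' ⊢; tauto)
  refine ⟨A' ++ (R ++ (M.reverse ++ C')), hA.join h5 h1 ?_, ?_, ?_, ?_, ?_⟩
  · intro v hv hv'
    rcases List.mem_append.1 hv' with h | h
    · exact hLR v h (by simp [hv])
    · exact hAB v hv (by simpa using h)
  · intro v
    simp only [List.mem_append, List.mem_reverse]
    tauto
  · simp only [List.length_append, List.length_reverse]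
    omega
  · intro e he hne hne'
    rw [eds_join _ _ _ _ hx hMC, eds_join _ _ _ _ hM2 hy] at he
    rw [eds_join _ _ _ _ hx h5.head, eds_join _ _ _ _ hR.last h4.head,
      eds_join _ _ _ _ hM.reverse.last hy, eds_reverse]
    simp only [List.mem_append, List.mem_cons, List.mem_reverse] at he ⊢
    tauto
  · intro w
    rw [wt_join w hx h5.head, wt_join w hR.last h4.head, wt_join w hM.reverse.last hy,
      wt_join w hx hMC, wt_join w hM2 hy, wt_reverse]
    ring

/-- a chord cuts a path into a shorter path and a shorter cycle -/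
lemma shortcut {s t x y : V} {A M C : List V} (hL : Pth G s t (A ++ x :: (M ++ y :: C)))
    (hxy : G.Adj x y) :
    Pth G s t (A ++ x :: y :: C) ∧ Pth G x y (x :: (M ++ [y])) ∧
      ∀ w, wt w (A ++ x :: (M ++ y :: C)) + w s(x, y) =
        wt w (A ++ x :: y :: C) + wt w (x :: (M ++ [y])) := by
  induction A generalizing s with
  | nil =>
    have hs : s = x := by simpa using hL.head.symm
    subst hs
    simp only [List.nil_append] at hL ⊢
    cases C with
    | nil =>
      have ht : t = y := by
        have := hL.last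
        rw [← List.cons_append, List.getLast?_append] at this
        simpa using this.symm
      subst ht
      refine ⟨(Pth.single s).join (Pth.single t) hxy (by simpa using hxy.ne), hL, fun w => ?_⟩
      simp [wt, add_comm]
    | cons c C =>
      have e0 : s :: (M ++ y :: c :: C) = (s :: (M ++ [y])) ++ (c :: C) := by simp
      have hy : (s :: (M ++ [y])).getLast? = some y := by
        rw [← List.cons_append, List.getLast?_append]; simp
      rw [e0] at hL ⊢
      obtain ⟨h1, h2, h3, h4⟩ := hL.split hy (b := c) (by simp)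
      have h5 : Pth G y t ([y] ++ c :: C) :=
        (Pth.single y).join h2 h3 fun v hv => h4 v (by simp at hv; simp [hv])
      have h6 : Pth G s t ([s] ++ ([y] ++ c :: C)) := by
        refine (Pth.single s).join h5 hxy fun v hv hv' => ?_
        simp only [List.mem_singleton] at hv
        subst hv
        rcases List.mem_append.1 hv' with h | h
        · exact hxy.ne (by simpa using h)
        · exact h4 v (by simp) h
      refine ⟨h6, h1, fun w => ?_⟩
      rw [wt_join w hy (b := c) (by simp)]
      simp only [wt, eds_cons2, List.map_cons, List.sum_cons]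
      ring
  | cons a A ih =>
    obtain ⟨b, hb⟩ : ∃ b, (A ++ [x]).head? = some b := by cases A <;> simp
    have hb1 : (A ++ x :: (M ++ y :: C)).head? = some b := by cases A <;> simpa using hb
    have hb2 : (A ++ x :: y :: C).head? = some b := by cases A <;> simpa using hb
    have hL' : Pth G s t ([a] ++ (A ++ x :: (M ++ y :: C))) := hL
    obtain ⟨h1, h2, h3, h4⟩ := hL'.split (a := a) (by simp) hb1
    obtain ⟨h5, h6, h7⟩ := ih h2
    refine ⟨h1.join h5 h3 fun v hv hv' => h4 v hv (by simp at hv' ⊢; tauto), h6, fun w => ?_⟩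
    have e1 := wt_join w (A := [a]) (a := a) (by simp) hb1
    have e2 := wt_join w (A := [a]) (a := a) (by simp) hb2
    have e3 := h7 w
    simp only [List.cons_append, List.nil_append] at e1 e2 ⊢
    rw [e1, e2]
    linear_combination e3

end Pool.Agent.Lib.MP_0a7691_co.CE
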