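import Mathlib
import Pool.Agent.Lib.MP_0a7691_co.CE.Basic

/-!
The argument of Chvatal and Erdos: Hamilton paths with given ends through a protected edge.
-/

namespace Pool.Agent.Lib.MP_0a7691_co.CE

open Finset

variable {V : Type*} {G : SimpleGraph V}

/-- the edges of `G` with both ends in `Y` -/
def res (G : SimpleGraph V) (Y : Set V) : SimpleGraph V where
  Adj a b := G.Adj a b ∧ a ∈ Y ∧ b ∈ Y
  symm := ⟨fun _ _ h => ⟨h.1.symm, h.2.2, h.2.1⟩⟩
  loopless := ⟨fun _ h => h.1.ne rfl⟩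

lemma eds_support {H : SimpleGraph V} : ∀ {a b : V} (p : H.Walk a b), eds p.support = p.edges
  | _, _, .nil => by simp
  | _, _, .cons h .nil => by simp
  | _, _, .cons h (.cons h' q) => by
    have := eds_support (.cons h' q)
    simp only [SimpleGraph.Walk.support_cons, SimpleGraph.Walk.edges_cons] at this ⊢
    rw [← this, eds_cons2]

lemma pth_support {a b : V} (p : G.Walk a b) (hp : p.IsPath) : Pth G a b p.support := by
  refine ⟨hp.support_nodup, fun e he => p.edges_subset_edgeSet (eds_support p ▸ he), ?_, ?_⟩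
  · cases p <;> simp
  · rw [List.getLast?_eq_some_getLast (by simp)]
    simp

lemma res_support {Y : Set V} : ∀ {a b : V} (p : (res G Y).Walk a b), a ∈ Y →
    ∀ v ∈ p.support, v ∈ Y ∧ (res G Y).Reachable a v
  | _, _, .nil, ha, v, hv => by
    simp at hv
    subst hv
    exact ⟨ha, .refl _⟩
  | _, _, .cons h q, ha, v, hv => by
    simp only [SimpleGraph.Walk.support_cons, List.mem_cons] at hv
    rcases hv with rfl | hv
    · exact ⟨ha, .refl _⟩
    · exact ⟨(res_support q h.2.2 v hv).1, h.reachable.trans (res_support q h.2.2 v hv).2⟩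

lemma pth_of_reach {Y : Set V} {a b : V} (h : (res G Y).Reachable a b) (ha : a ∈ Y) :
    ∃ R, Pth G a b R ∧ ∀ v ∈ R, v ∈ Y := by
  obtain ⟨p, hp⟩ := h.exists_isPath
  have h1 := pth_support p hp
  refine ⟨p.support, ⟨h1.nodup, fun e he => ?_, h1.head, h1.last⟩,
    fun v hv => (res_support p ha v hv).1⟩
  exact SimpleGraph.edgeSet_mono (fun _ _ h => h.1 : res G Y ≤ G) (h1.adj e he)

lemma reach_mem {Y : Set V} {a b : V} (h : (res G Y).Reachable a b) (ha : a ∈ Y) : b ∈ Y := by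
  obtain ⟨p⟩ := h
  exact (res_support p ha b p.end_mem_support).1

lemma reach_closed {H : SimpleGraph V} {D : Set V} (hD : ∀ a b, a ∈ D → H.Adj a b → b ∈ D)
    {a b : V} (h : H.Reachable a b) (ha : a ∈ D) : b ∈ D := by
  obtain ⟨p⟩ := h
  induction p with
  | nil => exact ha
  | cons h q ih => exact ih (hD _ _ ha h)

/-- `k`-connectivity -/
def KC [Fintype V] (G : SimpleGraph V) (k : ℕ) : Prop :=
  k < Fintype.card V ∧
    ∀ S : Finset V, S.card < k → ∀ a b, a ∉ S → b ∉ S → (res G {v | v ∉ S}).Reachable a b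

lemma count_succ [DecidableEq V] {L : List V} (hL : L.Nodup) (N : Finset V)
    (hN : ∀ x ∈ N, x ∈ L) (F : Finset (Sym2 V)) :
    ∃ (N' : Finset V) (f : V → V), N' ⊆ N ∧ N.card ≤ N'.card + 1 + F.card ∧
      ∀ x ∈ N', Dt L x (f x) ∧ s(x, f x) ∉ F := by
  classical
  rcases N.eq_empty_or_nonempty with rfl | ⟨x0, hx0⟩
  · exact ⟨∅, id, by simp, by simp, by simp⟩
  obtain ⟨t, ht⟩ : ∃ t, L.getLast? = some t := by
    have := hN x0 hx0
    cases L with
    | nil => simp at this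
    | cons a L => exact ⟨_, List.getLast?_eq_some_getLast (by simp)⟩
  have hf : ∀ x, ∃ y, x ∈ N → x ≠ t → Dt L x y := by
    intro x
    by_cases h : x ∈ N ∧ x ≠ t
    · obtain ⟨y, hy⟩ := dt_exists (hN x h.1) ht h.2
      exact ⟨y, fun _ _ => hy⟩
    · exact ⟨x, fun h1 h2 => absurd ⟨h1, h2⟩ h⟩
  choose f hf using hf
  refine ⟨(N.erase t).filter (fun x => s(x, f x) ∉ F), f,
    (filter_subset _ _).trans (erase_subset _ _), ?_, ?_⟩
  · have h1 := card_filter_add_card_filter_not (s := N.erase t) (fun x => s(x, f x) ∈ F)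
    have h2 : ((N.erase t).filter (fun x => s(x, f x) ∈ F)).card ≤ F.card := by
      refine card_le_card_of_injOn (fun x => s(x, f x)) (fun x hx => ?_) (fun x hx y hy h => ?_)
      · exact (mem_filter.1 (mem_coe.1 hx)).2
      · have hx' := mem_erase.1 (mem_filter.1 (mem_coe.1 hx)).1
        have hy' := mem_erase.1 (mem_filter.1 (mem_coe.1 hy)).1
        rcases Sym2.eq_iff.1 h with h | ⟨h3, h4⟩
        · exact h.1
        · have h5 := hf x hx'.2 hx'.1
          have h6 := hf y hy'.2 hy'.1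
          rw [h4] at h5
          rw [← h3] at h6
          exact (dt_asymm hL h5 h6).elim
    have h3 := pred_card_le_card_erase (s := N) (a := t)
    omega
  · intro x hx
    have hx' := mem_filter.1 hx
    have hx'' := mem_erase.1 hx'.1
    exact ⟨hf x hx''.2 hx''.1, hx'.2⟩

lemma core [Fintype V] [DecidableEq V] {L : List V} (hL : L.Nodup) (N : Finset V)
    (hN : ∀ x ∈ N, x ∈ L) (F : Finset (Sym2 V)) (u : V) (hu : u ∉ L)
    (hc : G.indepNum + 1 + F.card ≤ N.card) :
    (∃ x ∈ N, ∃ x', Dt L x x' ∧ s(x, x') ∉ F ∧ G.Adj u x') ∨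
    (∃ x ∈ N, ∃ y ∈ N, ∃ x' y' A M C, L = A ++ x :: (M ++ y' :: C) ∧ M.head? = some x' ∧
      M.getLast? = some y ∧ s(x, x') ∉ F ∧ s(y, y') ∉ F ∧ G.Adj x' y') := by
  obtain ⟨N', f, hsub, hcard, hf⟩ := count_succ hL N hN F
  by_contra hcon
  rw [not_or] at hcon
  obtain ⟨c1, c2⟩ := hcon
  have hinj : Set.InjOn f N' := fun x hx y hy h =>
    dt_pred_unique hL (hf x hx).1 (h ▸ (hf y hy).1)
  have hu' : u ∉ N'.image f := by
    intro h
    obtain ⟨x, hx, rfl⟩ := mem_image.1 h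
    exact hu (hf x hx).1.mem_right
  have hind : G.IsIndepSet (insert u (N'.image f) : Finset V) := by
    intro a ha b hb hab hadj
    simp only [coe_insert, coe_image, Set.mem_insert_iff, Set.mem_image, mem_coe] at ha hb
    rcases ha with rfl | ⟨x, hx, rfl⟩ <;> rcases hb with rfl | ⟨y, hy, rfl⟩
    · exact hab rfl
    · exact c1 ⟨y, hsub hy, _, (hf y hy).1, (hf y hy).2, hadj⟩
    · exact c1 ⟨x, hsub hx, _, (hf x hx).1, (hf x hx).2, hadj.symm⟩
    · have hxy : x ≠ y := fun h => hab (by rw [h])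
      rcases dt_split (hf x hx).1 (hf y hy).1 hxy with ⟨A, M, C, h1, h2, h3⟩ | ⟨A, M, C, h1, h2, h3⟩
      · exact c2 ⟨x, hsub hx, y, hsub hy, _, _, A, M, C, h1, h2, h3, (hf x hx).2, (hf y hy).2, hadj⟩
      · exact c2 ⟨y, hsub hy, x, hsub hx, _, _, A, M, C, h1, h2, h3, (hf y hy).2, (hf x hx).2,
          hadj.symm⟩
  have := hind.card_le_indepNum
  rw [card_insert_of_notMem hu', card_image_of_injOn hinj] at this
  omega

lemma extend [Fintype V] [DecidableEq V] {k : ℕ} (hk : KC G k) (X : Finset V)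
    (F : Finset (Sym2 V)) (hc : X.card + G.indepNum + 1 + F.card ≤ k) {s t : V} {L : List V}
    (hL : Pth G s t L) (hX : ∀ v ∈ L, v ∉ X) (hlen : F.card + 2 ≤ L.length) {u : V} (hu : u ∉ L)
    (huX : u ∉ X) :
    ∃ L', Pth G s t L' ∧ (∀ v ∈ L', v ∉ X) ∧ L.length < L'.length ∧
      ∀ e ∈ F, e ∈ eds L → e ∈ eds L' := by
  classical
  set Y : Set V := {v | v ∉ L ∧ v ∉ X} with hY
  have huY : u ∈ Y := ⟨hu, huX⟩
  set N : Finset V := L.toFinset.filter (fun x => ∃ d, (res G Y).Reachable u d ∧ G.Adj d x) with hNd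
  have hN : ∀ x ∈ N, x ∈ L := fun x hx => List.mem_toFinset.1 (mem_filter.1 hx).1
  have hpath : ∀ x ∈ N, ∀ y ∈ N, ∃ r r' R, Pth G r r' R ∧ (∀ v ∈ R, v ∈ Y) ∧ G.Adj x r ∧
      G.Adj r' y := by
    intro x hx y hy
    obtain ⟨d, hd, hdx⟩ := (mem_filter.1 hx).2
    obtain ⟨d', hd', hdy⟩ := (mem_filter.1 hy).2
    obtain ⟨R, hR, hRY⟩ := pth_of_reach (hd.symm.trans hd') (reach_mem hd huY)
    exact ⟨d, d', R, hR, hRY, hdx.symm, hdy⟩
  have hpos : ∀ {r r' : V} {R : List V}, Pth G r r' R → 0 < R.length :=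
    fun h => List.length_pos_of_mem h.head_mem
  by_cases hins : ∃ x ∈ N, ∃ y ∈ N, Dt L x y ∧ s(x, y) ∉ F
  · obtain ⟨x, hx, y, hy, hd, hF⟩ := hins
    obtain ⟨r, r', R, hR, hRY, h1, h2⟩ := hpath x hx y hy
    obtain ⟨L', h3, h4, h5, h6, -⟩ := insertion hL hd hR (fun v hv => (hRY v hv).1) h1 h2
    refine ⟨L', h3, fun v hv => ?_, by have := hpos hR; omega, fun e he he' => h6 e he' ?_⟩
    · rcases (h4 v).1 hv with h | h
      · exact hX v h
      · exact (hRY v h).2
    · rintro rfl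
      exact hF he
  obtain ⟨z, hzL, hzN⟩ : ∃ z ∈ L, z ∉ N := by
    obtain ⟨N', f, -, hcard, hf⟩ := count_succ hL.nodup L.toFinset
      (fun x hx => List.mem_toFinset.1 hx) F
    rw [List.toFinset_card_of_nodup hL.nodup] at hcard
    obtain ⟨x, hx⟩ : N'.Nonempty := card_pos.1 (by omega)
    by_cases h1 : x ∈ N
    · exact ⟨f x, (hf x hx).1.mem_right, fun h2 => hins ⟨x, h1, _, h2, hf x hx⟩⟩
    · exact ⟨x, (hf x hx).1.mem_left, h1⟩
  have hbig : k ≤ (N ∪ X).card := by
    by_contra hlt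
    have hr := hk.2 (N ∪ X) (by omega) u z
      (by simp only [mem_union, not_or]; exact ⟨fun h => hu (hN u h), huX⟩)
      (by simp only [mem_union, not_or]; exact ⟨hzN, hX z hzL⟩)
    have := reach_closed (D := {v | (res G Y).Reachable u v}) (fun a b ha hab => ?_) hr (.refl _)
    · exact (reach_mem this huY).1 hzL
    · have hb : b ∉ N ∪ X := hab.2.2
      simp only [mem_union, not_or] at hb
      have hbL : b ∉ L := fun h => hb.1 (mem_filter.2 ⟨List.mem_toFinset.2 h, a, ha, hab.1⟩)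
      exact SimpleGraph.Reachable.trans ha
        (SimpleGraph.Adj.reachable (⟨hab.1, reach_mem ha huY, hbL, hb.2⟩ : (res G Y).Adj a b))
  have hU := card_union_le N X
  rcases core (G := G) hL.nodup N hN F u hu (by omega) with ⟨x, hx, x', h1, h2, h3⟩ |
    ⟨x, hx, y, hy, x', y', A, M, C, rfl, h1, h2, h3, h4, h5⟩
  · exact (hins ⟨x, hx, x', mem_filter.2 ⟨List.mem_toFinset.2 h1.mem_right, u, .refl _, h3⟩,
      h1, h2⟩).elim
  · obtain ⟨r, r', R, hR, hRY, h6, h7⟩ := hpath x hx y hy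
    obtain ⟨L', h8, h9, h10, h11, -⟩ := reroute hL h1 h2 hR (fun v hv => (hRY v hv).1) h6 h7 h5
    refine ⟨L', h8, fun v hv => ?_, by have := hpos hR; omega, fun e he he' => h11 e he' ?_ ?_⟩
    · rcases (h9 v).1 hv with h | h
      · exact hX v h
      · exact (hRY v h).2
    · rintro rfl
      exact h3 he
    · rintro rfl
      exact h4 he

lemma extend_all [Fintype V] [DecidableEq V] {k : ℕ} (hk : KC G k) (X : Finset V)
    (F : Finset (Sym2 V)) (hc : X.card + G.indepNum + 1 + F.card ≤ k) {s t : V} :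
    ∀ (m : ℕ) (L : List V), Fintype.card V ≤ L.length + m → Pth G s t L → (∀ v ∈ L, v ∉ X) →
      F.card + 2 ≤ L.length →
      ∃ L', Pth G s t L' ∧ (∀ v, v ∈ L' ↔ v ∉ X) ∧ ∀ e ∈ F, e ∈ eds L → e ∈ eds L' := by
  intro m
  induction m with
  | zero =>
    intro L hm hL hX hlen
    by_cases h : ∃ u, u ∉ L ∧ u ∉ X
    · obtain ⟨u, hu, huX⟩ := h
      obtain ⟨L', h1, -, h3, -⟩ := extend hk X F hc hL hX hlen hu huX
      have := h1.nodup.length_le_card
      omega
    · push Not at h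
      exact ⟨L, hL, fun v => ⟨hX v, fun hv => by_contra fun h' => hv (h v h')⟩, fun _ _ h => h⟩
  | succ m ih =>
    intro L hm hL hX hlen
    by_cases h : ∃ u, u ∉ L ∧ u ∉ X
    · obtain ⟨u, hu, huX⟩ := h
      obtain ⟨L', h1, h2, h3, h4⟩ := extend hk X F hc hL hX hlen hu huX
      obtain ⟨L'', h5, h6, h7⟩ := ih L' (by omega) h1 h2 (by omega)
      exact ⟨L'', h5, h6, fun e he he' => h7 e he (h4 e he he')⟩
    · push Not at h
      exact ⟨L, hL, fun v => ⟨hX v, fun hv => by_contra fun h' => hv (h v h')⟩, fun _ _ h => h⟩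

lemma Pth.two_le {s t : V} {L : List V} (h : Pth G s t L) (hst : s ≠ t) : 2 ≤ L.length := by
  match L, h with
  | [], h => simpa using h.head
  | [x], h =>
    have h1 := h.head
    have h2 := h.last
    simp at h1 h2
    exact absurd (h1.symm.trans h2) hst
  | _ :: _ :: _, _ => simp

/-- Hamilton connectedness of `G - X` -/
lemma ham_path [Fintype V] [DecidableEq V] {k : ℕ} (hk : KC G k) (X : Finset V)
    (hc : X.card + G.indepNum + 1 ≤ k) {s t : V} (hs : s ∉ X) (ht : t ∉ X) (hst : s ≠ t) :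
    ∃ L, Pth G s t L ∧ ∀ v, v ∈ L ↔ v ∉ X := by
  obtain ⟨L, hL, hX⟩ := pth_of_reach (hk.2 X (by omega) s t hs ht) hs
  obtain ⟨L', h1, h2, -⟩ := extend_all hk X ∅ (by simpa using hc) (Fintype.card V) L (by omega)
    hL hX (by simpa using hL.two_le hst)
  exact ⟨L', h1, h2⟩

lemma two_mem {L : List V} {a b : V} (ha : a ∈ L) (hb : b ∈ L) (hab : a ≠ b) :
    (∃ A M C, L = A ++ a :: (M ++ b :: C)) ∨ ∃ A M C, L = A ++ b :: (M ++ a :: C) := by
  obtain ⟨A, B, rfl⟩ := List.append_of_mem ha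
  simp only [List.mem_append, List.mem_cons] at hb
  rcases hb with hb | hb | hb
  · obtain ⟨A', M, rfl⟩ := List.append_of_mem hb
    exact Or.inr ⟨A', M, B, by simp⟩
  · exact absurd hb.symm hab
  · obtain ⟨M, C, rfl⟩ := List.append_of_mem hb
    exact Or.inl ⟨A, M, C, rfl⟩

/-- a Hamilton path of `G - X` with given ends through a given edge -/
lemma ham_path_edge [Fintype V] [DecidableEq V] {k : ℕ} (hk : KC G k) (X : Finset V)
    (hc : X.card + G.indepNum + 2 ≤ k) {s t a b : V} (hs : s ∉ X) (ht : t ∉ X) (hst : s ≠ t)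
    (ha : a ∉ X) (hb : b ∉ X) (hab : G.Adj a b) (hsa : s ≠ a) (hsb : s ≠ b) :
    ∃ L, Pth G s t L ∧ (∀ v, v ∈ L ↔ v ∉ X) ∧ (Dt L a b ∨ Dt L b a) := by
  obtain ⟨Z, hZ, hX⟩ := ham_path hk X (by omega) hs ht hst
  have key : ∀ {a b : V} {A M C : List V}, G.Adj a b → s ≠ a → Z = A ++ a :: (M ++ b :: C) →
      ∃ L, Pth G s t L ∧ (∀ v, v ∈ L ↔ v ∉ X) ∧ s(a, b) ∈ eds L := by
    intro a b A M C hab hsa hZ'
    subst hZ'
    obtain ⟨h1, -, -⟩ := shortcut hZ hab
    have hA : A ≠ [] := by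
      rintro rfl
      exact hsa (by simpa using hZ.head.symm)
    have hA' := List.length_pos_iff.2 hA
    obtain ⟨L, h2, h3, h4⟩ := extend_all hk X {s(a, b)} (by simp; omega) (Fintype.card V) _
      (by omega) h1 (fun v hv => (hX v).1 (by simp at hv ⊢; tauto)) (by simp; omega)
    exact ⟨L, h2, h3, h4 _ (by simp) (Dt.mem_eds ⟨A, C, rfl⟩)⟩
  rcases two_mem ((hX a).2 ha) ((hX b).2 hb) hab.ne with ⟨A, M, C, h⟩ | ⟨A, M, C, h⟩
  · obtain ⟨L, h1, h2, h3⟩ := key hab hsa h
    exact ⟨L, h1, h2, dt_of_mem_eds L a b h3⟩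
  · obtain ⟨L, h1, h2, h3⟩ := key hab.symm hsb h
    exact ⟨L, h1, h2, (dt_of_mem_eds L b a h3).symm⟩

lemma min_deg [Fintype V] [DecidableEq V] [DecidableRel G.Adj] {k : ℕ} (hk : KC G k) (v : V) :
    k ≤ (univ.filter (G.Adj v)).card := by
  by_contra hlt
  set S := univ.filter (G.Adj v) with hS
  obtain ⟨z, hz⟩ : ∃ z, z ∉ insert v S := by
    by_contra h
    push Not at h
    have h1 := card_le_card (fun z _ => h z : (univ : Finset V) ⊆ insert v S)
    have h2 := card_insert_le v S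
    have h3 := hk.1
    rw [card_univ] at h1
    omega
  rw [mem_insert, not_or] at hz
  have hr := hk.2 S (by omega) v z (by simp [hS]) hz.2
  refine hz.1 (reach_closed (D := {v}) (fun a b ha hab => ?_) hr rfl)
  have ha' : a = v := ha
  subst ha'
  have hb : b ∉ S := hab.2.2
  exact absurd (by simpa [hS] using hab.1) hb

lemma nbr_edge [Fintype V] [DecidableEq V] {k : ℕ} (hk : KC G k) (X : Finset V)
    (hc : X.card + G.indepNum + 1 ≤ k) (v : V) :
    ∃ a b, G.Adj v a ∧ G.Adj v b ∧ G.Adj a b ∧ a ∉ X ∧ b ∉ X := by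
  classical
  by_contra h
  push Not at h
  have hind : G.IsIndepSet ((univ.filter (G.Adj v) \ X : Finset V) : Set V) := by
    intro a ha b hb _ hadj
    simp only [coe_sdiff, coe_filter, mem_univ, true_and, Set.mem_sdiff, Set.mem_ofPred_eq,
      mem_coe] at ha hb
    exact hb.2 (h a b ha.1 hb.1 hadj ha.2)
  have h1 := hind.card_le_indepNum
  have h2 := min_deg hk v
  have h3 := le_card_sdiff X (univ.filter (G.Adj v))
  omega

/-- no chord -/
def Ind (G : SimpleGraph V) (L : List V) : Prop :=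
  ∀ A x M y C, L = A ++ x :: (M ++ y :: C) → M ≠ [] → ¬ G.Adj x y

lemma ind_indep [DecidableEq V] : ∀ L : List V, L.Nodup → Ind G L →
    ∃ I : Finset V, (∀ v ∈ I, v ∈ L) ∧ G.IsIndepSet (I : Set V) ∧ L.length ≤ 2 * I.card
  | [], _, _ => ⟨∅, by simp, by simp, by simp⟩
  | [x], _, _ => ⟨{x}, by simp, by simp, by simp⟩
  | x :: y :: l, hn, hi => by
    have hn' : l.Nodup := hn.of_cons.of_cons
    have hx : x ∉ l := fun h => (List.nodup_cons.1 hn).1 (by simp [h])
    obtain ⟨I, h1, h2, h3⟩ := ind_indep l hn' fun A a M b C h hM =>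
      hi (x :: y :: A) a M b C (by simp [h]) hM
    have hna : ∀ z ∈ I, ¬ G.Adj x z := by
      intro z hz
      obtain ⟨M, C, rfl⟩ := List.append_of_mem (h1 z hz)
      exact hi [] x (y :: M) z C (by simp) (by simp)
    refine ⟨insert x I, fun v hv => ?_, ?_, ?_⟩
    · rcases mem_insert.1 hv with rfl | hv
      · simp
      · simp [h1 v hv]
    · intro a ha b hb hab hadj
      simp only [coe_insert, Set.mem_insert_iff, mem_coe] at ha hb
      rcases ha with rfl | ha <;> rcases hb with rfl | hb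
      · exact hab rfl
      · exact hna b hb hadj
      · exact hna a ha hadj.symm
      · exact h2 ha hb hab hadj
    · rw [card_insert_of_notMem fun h => hx (h1 x h)]
      simp
      omega

lemma ind_length [Fintype V] [DecidableEq V] {L : List V} (hn : L.Nodup) (hi : Ind G L) :
    L.length ≤ 2 * G.indepNum := by
  obtain ⟨I, -, h2, h3⟩ := ind_indep L hn hi
  have := h2.card_le_indepNum
  omega

lemma short_path [Fintype V] [DecidableEq V] {k : ℕ} (hk : KC G k) (X : Finset V)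
    (hc : X.card < k) {s t : V} (hs : s ∉ X) (ht : t ∉ X) :
    ∃ L, Pth G s t L ∧ (∀ v ∈ L, v ∉ X) ∧ L.length ≤ 2 * G.indepNum := by
  obtain ⟨L, hL, hX⟩ := pth_of_reach (hk.2 X hc s t hs ht) hs
  change ∀ v ∈ L, v ∉ X at hX
  induction hm : L.length using Nat.strong_induction_on generalizing L with
  | _ m ih =>
    by_cases hi : Ind G L
    · exact ⟨L, hL, hX, ind_length hL.nodup hi⟩
    · simp only [Ind, not_forall, not_not] at hi
      obtain ⟨A, x, M, y, C, rfl, hM, hxy⟩ := hi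
      have := List.length_pos_iff.2 hM
      exact ih _ (by rw [← hm]; simp; omega) _ (shortcut hL hxy).1
        (fun v hv => hX v (by simp at hv ⊢; tauto)) rfl

end Pool.Agent.Lib.MP_0a7691_co.CE
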