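import Mathlib
import Pool.Agent.Lib.MP_0a7691_co.CE.Ham

/-!
An edge weighting over the field with two elements that vanishes on all Hamilton cycles vanishes
on all cycles, if the order is odd and the connectivity is at least three times the independence
number plus three.
-/

namespace Pool.Agent.Lib.MP_0a7691_co.CE

open Finset

variable {V : Type*} {G : SimpleGraph V}

/-- all Hamilton cycles have weight zero -/
def HamZero (G : SimpleGraph V) (w : Sym2 V → ZMod 2) : Prop :=
  ∀ s t L, Pth G s t L → (∀ v, v ∈ L) → G.Adj t s → wt w L + w s(t, s) = 0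

/-- the weight of a triangle -/
def tri (w : Sym2 V → ZMod 2) (u a b : V) : ZMod 2 := w s(u, a) + w s(a, b) + w s(b, u)

lemma wsym (w : Sym2 V → ZMod 2) (a b : V) : w s(a, b) = w s(b, a) := by rw [Sym2.eq_swap]

lemma absorb_tri (w : Sym2 V → ZMod 2) {s t c d u : V} {Z : List V} (hZ : Pth G s t Z)
    (hd : Dt Z c d ∨ Dt Z d c) (hu : u ∉ Z) (hc : G.Adj u c) (hd' : G.Adj u d) :
    ∃ Z', Pth G s t Z' ∧ (∀ v, v ∈ Z' ↔ v ∈ Z ∨ v = u) ∧ wt w Z' = wt w Z + tri w u c d := by
  rcases hd with hd | hd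
  · obtain ⟨Z', h1, h2, -, -, h5⟩ := insertion hZ hd (Pth.single u) (by simpa using hu) hc.symm hd'
    refine ⟨Z', h1, by simpa using h2, ?_⟩
    have e := h5 w
    have e1 := wsym w c u
    have e2 := wsym w u d
    simp only [wt_single, tri] at e ⊢
    grind
  · obtain ⟨Z', h1, h2, -, -, h5⟩ := insertion hZ hd (Pth.single u) (by simpa using hu) hd'.symm hc
    refine ⟨Z', h1, by simpa using h2, ?_⟩
    have e := h5 w
    have e1 := wsym w c d
    simp only [wt_single, tri] at e ⊢
    grind

variable [Fintype V] [DecidableEq V] {k : ℕ} {w : Sym2 V → ZMod 2}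

omit [DecidableEq V] in
lemma one_le_indepNum (hk : KC G k) : 1 ≤ G.indepNum := by
  have : Nonempty V := Fintype.card_pos_iff.1 (by have := hk.1; omega)
  obtain ⟨v⟩ := this
  have h : G.IsIndepSet (({v} : Finset V) : Set V) := by simp
  simpa using h.card_le_indepNum

lemma tri_disjoint (hk : KC G k) (h3 : 3 * G.indepNum + 3 ≤ k) (hH : HamZero G w)
    {u a b c d : V} (ha : G.Adj u a) (hb : G.Adj u b) (hab : G.Adj a b) (hc : G.Adj u c)
    (hd : G.Adj u d) (hcd : G.Adj c d) (hac : a ≠ c) (had : a ≠ d) :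
    tri w u a b = tri w u c d := by
  obtain ⟨Z, hZ, hX, hD⟩ := ham_path_edge hk {u} (by simp; omega) (s := a) (t := b)
    (by simpa using ha.ne') (by simpa using hb.ne') hab.ne (by simpa using hc.ne')
    (by simpa using hd.ne') hcd hac had
  have hu : u ∉ Z := by simp [hX]
  have e1 := hH a u (Z ++ [u]) (hZ.join (Pth.single u) hb.symm (by
    intro v hv
    simpa using (hX v).1 hv)) (by
    intro v
    by_cases h : v = u <;> simp [hX, h]) ha
  obtain ⟨Z', h1, h2, h4⟩ := absorb_tri w hZ hD hu hc hd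
  have e2 := hH a b Z' h1 (by
    intro v
    by_cases h : v = u <;> simp [h2, hX, h]) hab.symm
  rw [wt_join w hZ.last (b := u) (by simp)] at e1
  have e3 := wsym w a b
  simp only [wt_single, tri] at e1 h4 ⊢
  grind

lemma exists_tau (hk : KC G k) (h3 : 3 * G.indepNum + 3 ≤ k) (hH : HamZero G w) :
    ∃ τ : V → ZMod 2, ∀ u a b, G.Adj u a → G.Adj u b → G.Adj a b → tri w u a b = τ u := by
  have h1 := one_le_indepNum hk
  have h0 := fun v => nbr_edge hk ∅ (by simp; omega) v
  choose a0 b0 h0 using h0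
  refine ⟨fun u => tri w u (a0 u) (b0 u), fun u a b ha hb hab => ?_⟩
  obtain ⟨c, d, hc, hd, hcd, hcX, hdX⟩ := nbr_edge hk {a, a0 u}
    (by have := card_le_two (a := a) (b := a0 u); omega) u
  simp only [mem_insert, mem_singleton, not_or] at hcX hdX
  rw [tri_disjoint hk h3 hH ha hb hab hc hd hcd (Ne.symm hcX.1) (Ne.symm hdX.1)]
  exact (tri_disjoint hk h3 hH (h0 u).1 (h0 u).2.1 (h0 u).2.2.1 hc hd hcd (Ne.symm hcX.2)
    (Ne.symm hdX.2)).symm

/-- a pentagon through `u` has the weight of a triangle through `u` -/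
lemma pentagon (hk : KC G k) (h3 : 3 * G.indepNum + 3 ≤ k) (hH : HamZero G w)
    {τ : V → ZMod 2} (hτ : ∀ u a b, G.Adj u a → G.Adj u b → G.Adj a b → tri w u a b = τ u)
    {u v1 v2 v3 v4 : V} (h01 : G.Adj u v1) (h12 : G.Adj v1 v2) (h23 : G.Adj v2 v3)
    (h34 : G.Adj v3 v4) (h40 : G.Adj v4 u) (n02 : u ≠ v2) (n03 : u ≠ v3) (n13 : v1 ≠ v3)
    (n14 : v1 ≠ v4) :
    w s(u, v1) + w s(v1, v2) + w s(v2, v3) + w s(v3, v4) + w s(v4, u) = τ u := by
  have h1 := one_le_indepNum hk
  obtain ⟨a, b, ha, hb, hab, haX, hbX⟩ := nbr_edge hk {v2, v3, v4}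
    (by have := card_le_three (a := v2) (b := v3) (c := v4); omega) u
  simp only [mem_insert, mem_singleton, not_or] at haX hbX
  obtain ⟨P, hP, hPX, hPl⟩ := short_path hk {u, v1, v3, a, b}
    (by have := card_le_five (a := u) (b := v1) (c := v3) (d := a) (e := b); omega)
    (s := v2) (t := v4)
    (by simp [n02.symm, h12.ne', h23.ne, Ne.symm haX.1, Ne.symm hbX.1])
    (by simp [h40.ne, n14.symm, h34.ne', Ne.symm haX.2.2, Ne.symm hbX.2.2])
  simp only [mem_insert, mem_singleton, not_or] at hPX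
  have hcard : (insert u P.toFinset).card ≤ 2 * G.indepNum + 1 := by
    have := card_insert_le u P.toFinset
    have := List.toFinset_card_le P
    omega
  have hout : ∀ z, z ≠ u → (z = v1 ∨ z = v3 ∨ z = a ∨ z = b) → z ∉ insert u P.toFinset := by
    intro z hz h hmem
    rcases mem_insert.1 hmem with h' | h'
    · exact hz h'
    · have := hPX z (List.mem_toFinset.1 h')
      tauto
  obtain ⟨Q, hQ, hQX, hD⟩ := ham_path_edge hk (insert u P.toFinset) (by omega) (s := v3) (t := v1)
    (hout _ n03.symm (by simp)) (hout _ h01.ne' (by simp)) n13.symm (hout _ ha.ne' (by simp))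
    (hout _ hb.ne' (by simp)) hab (Ne.symm haX.2.1) (Ne.symm hbX.2.1)
  simp only [mem_insert, List.mem_toFinset, not_or] at hQX
  have huQ : u ∉ Q := fun h => ((hQX u).1 h).1 rfl
  have huP : u ∉ P := fun h => (hPX u h).1 rfl
  obtain ⟨Q', h4, h5, h6⟩ := absorb_tri w hQ hD huQ ha hb
  have e1 := hH v2 v1 (P ++ Q') (hP.join h4 h34.symm (by
    intro v hv hv'
    rcases (h5 v).1 hv' with h | h
    · exact ((hQX v).1 h).2 hv
    · exact huP (h ▸ hv))) (by
    intro v
    rw [List.mem_append, h5, hQX]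
    tauto) h12
  have h7 : Pth G u v3 ([u] ++ Q.reverse) :=
    (Pth.single u).join hQ.reverse h01 (by simpa using huQ)
  have e2 := hH v2 v3 (P ++ ([u] ++ Q.reverse)) (hP.join h7 h40 (by
    intro v hv hv'
    simp only [List.mem_append, List.mem_singleton, List.mem_reverse] at hv'
    rcases hv' with h | h
    · exact huP (h ▸ hv)
    · exact ((hQX v).1 h).2 hv)) (by
    intro v
    simp only [List.mem_append, List.mem_singleton, List.mem_reverse, hQX]
    tauto) h23.symm
  rw [wt_join w hP.last h4.head, h6, hτ u a b ha hb hab] at e1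
  rw [wt_join w hP.last h7.head, wt_join w (Pth.single (G := G) u).last hQ.reverse.head,
    wt_reverse, wt_single] at e2
  have e3 := wsym w v3 v4
  have e4 := wsym w v2 v3
  grind

/-- absorbing one vertex into a path changes the weight by `τ u` -/
lemma absorb (hk : KC G k) (h3 : 3 * G.indepNum + 3 ≤ k) (hH : HamZero G w)
    {τ : V → ZMod 2} (hτ : ∀ u a b, G.Adj u a → G.Adj u b → G.Adj a b → tri w u a b = τ u)
    {s t u : V} {Z : List V} (hZ : Pth G s t Z) (X : Finset V) (hX : ∀ v, v ∈ Z ↔ v ∉ X)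
    (hu : u ∈ X) (hc : X.card + G.indepNum + 1 ≤ k) :
    ∃ Z', Pth G s t Z' ∧ (∀ v, v ∈ Z' ↔ v ∈ Z ∨ v = u) ∧ wt w Z' = wt w Z + τ u := by
  classical
  have huZ : u ∉ Z := fun h => (hX u).1 h hu
  have h1 := min_deg hk u
  have h2 := le_card_sdiff X (univ.filter (G.Adj u))
  have hmem : ∀ x ∈ univ.filter (G.Adj u) \ X, G.Adj u x ∧ x ∈ Z := by
    intro x hx
    simpa [hX] using hx
  rcases core (G := G) hZ.nodup (univ.filter (G.Adj u) \ X) (fun x hx => (hmem x hx).2) ∅ u huZ
    (by simp only [card_empty]; omega) with ⟨x, hx, x', h4, -, h5⟩ |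
      ⟨x, hx, y, hy, x', y', A, M, C, rfl, h4, h5, -, -, h6⟩
  · have hxx' : G.Adj x x' := hZ.adj _ h4.mem_eds
    rw [← hτ u x x' (hmem x hx).1 h5 hxx']
    exact absorb_tri w hZ (Or.inl h4) huZ (hmem x hx).1 h5
  · have hux := (hmem x hx).1
    have huy := (hmem y hy).1
    obtain ⟨Z', h7, h8, -, -, h9⟩ := reroute hZ h4 h5 (Pth.single u) (by simpa using huZ)
      hux.symm huy h6
    refine ⟨Z', h7, fun v => by rw [h8, List.mem_singleton], ?_⟩
    have e := h9 w
    have hxx' : G.Adj x x' := by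
      obtain ⟨M', rfl⟩ := List.head?_eq_some_iff.1 h4
      exact hZ.adj _ (Dt.mem_eds ⟨A, M' ++ y' :: C, by simp⟩)
    have hyy' : G.Adj y y' := by
      obtain ⟨M', rfl⟩ := List.getLast?_eq_some_iff.1 h5
      exact hZ.adj _ (Dt.mem_eds ⟨A ++ x :: M', C, by simp⟩)
    have hx'M : x' ∈ M := List.mem_of_mem_head? h4
    have hyM : y ∈ M := List.mem_of_mem_getLast? h5
    have hn := hZ.nodup
    simp only [List.nodup_append, List.nodup_cons, List.mem_append, List.mem_cons, not_or] at hn
    have e1 := wsym w x u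
    have e2 := wsym w y u
    have e3 := wsym w y y'
    rw [wt_single] at e
    by_cases hx'y : x' = y
    · subst hx'y
      have e4 := hτ u x x' hux huy hxx'
      simp only [tri] at e4
      grind
    · have e4 := pentagon hk h3 hH hτ hux hxx' h6 hyy'.symm huy.symm
        (fun h => huZ (by simp [h, hx'M])) (fun h => huZ (by simp [h]))
        hn.2.1.1.2.1 (fun h => hn.2.1.1.1 (h ▸ hyM))
      grind

lemma absorb_all (hk : KC G k) (h3 : 3 * G.indepNum + 3 ≤ k) (hH : HamZero G w)
    {τ : V → ZMod 2} (hτ : ∀ u a b, G.Adj u a → G.Adj u b → G.Adj a b → tri w u a b = τ u)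
    {s t : V} (hts : G.Adj t s) : ∀ (U Z : List V), U.Nodup → Pth G s t Z →
      (∀ v, v ∈ Z ↔ v ∉ U) → U.length + G.indepNum + 1 ≤ k →
      wt w Z + w s(t, s) + (U.map τ).sum = 0
  | [], Z, _, hZ, hU, _ => by simpa using hH s t Z hZ (by simpa using hU) hts
  | u :: U, Z, hn, hZ, hU, hc => by
    obtain ⟨Z', h1, h2, h4⟩ := absorb hk h3 hH hτ hZ (u :: U).toFinset
      (fun v => by rw [hU, List.mem_toFinset]) (u := u) (by simp)
      (by have := List.toFinset_card_le (u :: U); omega)
    have hu : u ∉ U := (List.nodup_cons.1 hn).1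
    have ih := absorb_all hk h3 hH hτ hts U Z' hn.of_cons h1 (fun v => by
      rw [h2, hU]
      by_cases h : v = u <;> simp [h, hu]) (by simp at hc; omega)
    simp only [List.map_cons, List.sum_cons]
    grind

/-- the weight of a short cycle -/
lemma short_cycle (hk : KC G k) (h3 : 3 * G.indepNum + 3 ≤ k) (hH : HamZero G w)
    {τ : V → ZMod 2} (hτ : ∀ u a b, G.Adj u a → G.Adj u b → G.Adj a b → tri w u a b = τ u)
    {p q : V} {L : List V} (hL : Pth G p q L) (hqp : G.Adj q p) (hl : 3 ≤ L.length)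
    (hl' : L.length ≤ 2 * G.indepNum + 1) :
    wt w L + w s(q, p) = (L.map τ).sum + τ p + τ q := by
  obtain ⟨T, rfl⟩ := List.head?_eq_some_iff.1 hL.head
  obtain ⟨U, rfl⟩ : ∃ U, T = U ++ [q] := by
    have h := hL.last
    cases T with
    | nil => simp at hl
    | cons a T => exact List.getLast?_eq_some_iff.1 (by simpa [List.getLast?_cons_cons] using h)
  obtain ⟨a, ha⟩ : ∃ a, U.head? = some a := by
    cases U with
    | nil => simp at hl
    | cons a U => exact ⟨a, rfl⟩
  obtain ⟨b, hb⟩ : ∃ b, U.getLast? = some b := by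
    cases U with
    | nil => simp at hl
    | cons a U => exact ⟨_, List.getLast?_eq_some_getLast (by simp)⟩
  have ha' : (U ++ [q]).head? = some a := by simp [ha]
  have hL' : Pth G p q ([p] ++ (U ++ [q])) := hL
  obtain ⟨-, h1, hpa, hpU⟩ := hL'.split (a := p) (by simp) ha'
  obtain ⟨hU, -, hbq, hqU⟩ := h1.split hb (b := q) (by simp)
  have hp : p ∉ U.toFinset := fun h => hpU p (by simp) (by simp at h; simp [h])
  have hq : q ∉ U.toFinset := fun h => hqU q (by simpa using h) (by simp)
  simp only [List.length_cons, List.length_append, List.length_nil] at hl hl'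
  obtain ⟨Z, hZ, hX⟩ := ham_path hk U.toFinset
    (by have := List.toFinset_card_le U; omega) hp hq hqp.ne'
  simp only [List.mem_toFinset] at hX
  have e1 := absorb_all hk h3 hH hτ hqp U Z hU.nodup hZ hX (by omega)
  have e2 := hH p a (Z ++ U.reverse) (hZ.join hU.reverse hbq.symm (by simp [hX])) (by
    intro v
    simp only [List.mem_append, List.mem_reverse, hX]
    tauto) hpa.symm
  rw [wt_join w hZ.last hU.reverse.head, wt_reverse] at e2
  have e3 := wt_join w (A := [p]) (a := p) (by simp) ha'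
  rw [wt_join w hb (B := [q]) (b := q) (by simp), wt_single, wt_single] at e3
  have e4 := wsym w q b
  have e5 := wsym w a p
  simp only [List.cons_append, List.nil_append] at e3
  simp only [List.map_cons, List.map_append, List.sum_cons, List.sum_append, List.map_nil,
    List.sum_nil]
  grind

lemma tau_two (hk : KC G k) (h3 : 3 * G.indepNum + 3 ≤ k) (hH : HamZero G w)
    {τ : V → ZMod 2} (hτ : ∀ u a b, G.Adj u a → G.Adj u b → G.Adj a b → tri w u a b = τ u)
    {x y z : V} (hxy : G.Adj x y) (hyz : G.Adj y z) : τ x = τ z := by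
  by_cases hxz : x = z
  · rw [hxz]
  obtain ⟨P, hP, hX, hl⟩ := short_path hk {y} (by simp; omega) (s := x) (t := z)
    (by simpa using hxy.ne) (by simpa using hyz.ne')
  have h2 := hP.two_le hxz
  have hy : y ∉ P := fun h => hX y h (by simp)
  have e1 := short_cycle hk h3 hH hτ (hP.join (Pth.single y) hyz.symm (by simpa using hX))
    hxy.symm (by simp; omega) (by simp; omega)
  have e2 := short_cycle hk h3 hH hτ ((Pth.single y).join hP hxy.symm (by simpa using hy))
    hyz.symm (by simp; omega) (by simp; omega)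
  rw [wt_join w hP.last (Pth.single (G := G) y).head] at e1
  rw [wt_join w (Pth.single (G := G) y).last hP.head] at e2
  simp only [wt_single, List.map_append, List.sum_append, List.map_cons, List.map_nil,
    List.sum_cons, List.sum_nil] at e1 e2
  grind

lemma tau_const (hk : KC G k) (h3 : 3 * G.indepNum + 3 ≤ k) (hH : HamZero G w)
    {τ : V → ZMod 2} (hτ : ∀ u a b, G.Adj u a → G.Adj u b → G.Adj a b → tri w u a b = τ u)
    (x y : V) : τ x = τ y := by
  have hr := hk.2 ∅ (by simp; omega) x y (by simp) (by simp)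
  refine (reach_closed (D := {v | τ v = τ x}) (fun a b ha hab => ?_) hr rfl).symm
  obtain ⟨c, d, hc, hd, hcd, -, -⟩ := nbr_edge hk ∅ (by simp; omega) b
  have e1 : τ a = τ c := tau_two hk h3 hH hτ hab.1 hc
  have e2 : τ c = τ b := tau_two hk h3 hH hτ hcd hd.symm
  exact e2.symm.trans (e1.symm.trans ha)

lemma all_of_short (w : Sym2 V → ZMod 2)
    (h : ∀ p q L, Pth G p q L → G.Adj q p → 3 ≤ L.length → L.length ≤ 2 * G.indepNum + 1 →
      wt w L + w s(q, p) = 0) {p q : V} {L : List V} (hL : Pth G p q L) (hqp : G.Adj q p)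
    (hl : 3 ≤ L.length) : wt w L + w s(q, p) = 0 := by
  induction hm : L.length using Nat.strong_induction_on generalizing L p q with
  | _ m ih =>
    obtain ⟨T, rfl⟩ := List.head?_eq_some_iff.1 hL.head
    by_cases hi : Ind G T
    · have := ind_length hL.nodup.of_cons hi
      exact h p q _ hL hqp hl (by simp; omega)
    · simp only [Ind, not_forall, not_not] at hi
      obtain ⟨A, x, M, y, C, rfl, hM, hxy⟩ := hi
      have hM' := List.length_pos_iff.2 hM
      obtain ⟨h1, h2, h4⟩ := shortcut (A := p :: A) hL hxy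
      have e1 := ih _ (by rw [← hm]; simp; omega) h1 hqp (by simp; omega) rfl
      have e2 := ih _ (by rw [← hm]; simp; omega) h2 hxy.symm (by simp; omega) rfl
      have e3 := h4 w
      have e4 := wsym w x y
      simp only [List.cons_append] at e1 e3
      grind

theorem all_zero (hodd : Odd (Fintype.card V)) (hk : KC G k) (h3 : 3 * G.indepNum + 3 ≤ k)
    (hH : HamZero G w) {p q : V} {L : List V} (hL : Pth G p q L) (hqp : G.Adj q p)
    (hl : 3 ≤ L.length) : wt w L + w s(q, p) = 0 := by
  obtain ⟨τ, hτ⟩ := exists_tau hk h3 hH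
  have hc : ∀ x, τ x = τ p := fun x => tau_const hk h3 hH hτ x p
  have key : ∀ {a b : V} {Z : List V}, Pth G a b Z → G.Adj b a → 3 ≤ Z.length →
      wt w Z + w s(b, a) = (Z.length : ZMod 2) * τ p := by
    have cast : ∀ Z : List V, 3 ≤ Z.length →
        ((Z.length - 1 : ℕ) : ZMod 2) * τ p + τ p = (Z.length : ZMod 2) * τ p := by
      intro Z hZ
      rw [Nat.cast_sub (by omega)]
      push_cast
      ring
    intro a b Z hZ hba hZl
    have e := all_of_short (fun e => w e + τ p) (fun a b Z hZ hba hZl hZl' => by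
      have e1 := short_cycle hk h3 hH hτ hZ hba hZl hZl'
      have e2 : (Z.map τ).sum = (Z.length : ZMod 2) * τ p := by
        rw [List.map_congr_left (fun x _ => hc x)]
        simp
      have e3 := cast Z hZl
      rw [wt_add_const]
      rw [e2, hc a, hc b] at e1
      grind) hZ hba hZl
    have e3 := cast Z hZl
    rw [wt_add_const] at e
    grind
  obtain ⟨Z, hZ, hX⟩ := ham_path hk ∅ (by simp; omega) (s := p) (t := q) (by simp) (by simp)
    hqp.ne'
  have hX' : ∀ v, v ∈ Z := by simpa using hX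
  have hlen : Z.length = Fintype.card V := by
    rw [← List.toFinset_card_of_nodup hZ.nodup, ← card_univ]
    congr 1
    ext v
    simp [hX' v]
  have hn := hk.1
  have e1 := key hZ hqp (by omega)
  rw [hH p q Z hZ hX' hqp, hlen, (ZMod.natCast_eq_one_iff_odd).2 hodd, one_mul] at e1
  rw [key hL hqp hl, ← e1, mul_zero]

end Pool.Agent.Lib.MP_0a7691_co.CE
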