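import Mathlib
import Pool.Agent.Lib.MP_0a7691_co.CE.Main

/-!
The statement on weights, for cycles given as walks.
-/

namespace Pool.Agent.Lib.MP_0a7691_co.CE

variable {V : Type*} {G : SimpleGraph V}

lemma walk_of_pth : ∀ (L : List V) (s t : V), Pth G s t L → ∃ p : G.Walk s t, p.support = L
  | [], _, _, h => by simpa using h.head
  | [x], s, t, h => by
    have h1 := h.head
    have h2 := h.last
    simp at h1 h2
    subst h1 h2
    exact ⟨.nil, rfl⟩
  | x :: y :: l, s, t, h => by
    have h' : Pth G s t ([x] ++ (y :: l)) := h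
    obtain ⟨-, h1, h2, -⟩ := h'.split (a := x) (b := y) (by simp) (by simp)
    have hs : x = s := by simpa using h.head
    subst hs
    obtain ⟨p, hp⟩ := walk_of_pth (y :: l) y t h1
    exact ⟨.cons h2 p, by simp [hp]⟩

theorem walks_zero [Fintype V] [DecidableEq V] {k : ℕ} (w : Sym2 V → ZMod 2)
    (hodd : Odd (Fintype.card V)) (hk : KC G k) (h3 : 3 * G.indepNum + 3 ≤ k)
    (hH : ∀ (u : V) (p : G.Walk u u), p.IsCycle → p.length = Fintype.card V →
      (p.edges.map w).sum = 0)
    (u : V) (p : G.Walk u u) (hp : p.IsCycle) : (p.edges.map w).sum = 0 := by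
  have hZ : HamZero G w := by
    intro s t L hL hall hts
    obtain ⟨q, rfl⟩ := walk_of_pth L s t hL
    have hlen : q.support.length = Fintype.card V := by
      rw [← List.toFinset_card_of_nodup hL.nodup, ← Finset.card_univ]
      congr 1
      ext v
      simp [hall v]
    rw [SimpleGraph.Walk.length_support] at hlen
    have hn := hk.1
    have hc : (SimpleGraph.Walk.cons hts q).IsCycle := by
      rw [SimpleGraph.Walk.isCycle_iff_isPath_tail_and_le_length]
      refine ⟨?_, by simp; omega⟩
      simpa using (SimpleGraph.Walk.isPath_def q).2 hL.nodup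
    have := hH t _ hc (by simpa using hlen)
    simp only [SimpleGraph.Walk.edges_cons, List.map_cons, List.sum_cons] at this
    rw [wt, eds_support, add_comm]
    exact this
  have h3' := hp.three_le_length
  cases p with
  | nil => simp
  | cons h q =>
    have hq := ((SimpleGraph.Walk.cons_isCycle_iff q h).1 hp).1
    have := all_zero hodd hk h3 hZ (pth_support q hq) h (by simpa using h3')
    rw [wt, eds_support, add_comm] at this
    simpa using this

open Classical in
lemma functional_indicator (f : (G.edgeSet → ZMod 2) →ₗ[ZMod 2] ZMod 2) :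
    ∀ l : List (Sym2 V), l.Nodup → (∀ e ∈ l, e ∈ G.edgeSet) →
      f (Set.indicator {e : G.edgeSet | e.1 ∈ l} 1) =
        (l.map fun e => if h : e ∈ G.edgeSet then f (Pi.single ⟨e, h⟩ 1) else 0).sum
  | [], _, _ => by
    have : Set.indicator {e : G.edgeSet | e.1 ∈ ([] : List (Sym2 V))} (1 : G.edgeSet → ZMod 2)
        = 0 := by
      ext e
      simp
    rw [this]
    simp
  | a :: l, hn, he => by
    have ha : a ∈ G.edgeSet := he a (by simp)
    have hal : a ∉ l := (List.nodup_cons.1 hn).1
    have : Set.indicator {e : G.edgeSet | e.1 ∈ a :: l} (1 : G.edgeSet → ZMod 2)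
        = Pi.single ⟨a, ha⟩ 1 + Set.indicator {e : G.edgeSet | e.1 ∈ l} 1 := by
      ext e
      by_cases h : e = ⟨a, ha⟩
      · subst h
        simp [hal]
      · have h' : e.1 ≠ a := fun h'' => h (Subtype.ext h'')
        simp [Set.indicator, h, h']
    rw [this, map_add, functional_indicator f l hn.of_cons fun e h => he e (by simp [h])]
    simp [ha]

lemma kc_of_connected [Fintype V] {k : ℕ} (h1 : k < Fintype.card V)
    (h2 : ∀ S : Finset V, S.card < k → (G.induce {v | v ∉ S}).Connected) : KC G k := by
  refine ⟨h1, fun S hS a b ha hb => ?_⟩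
  exact ((h2 S hS).preconnected ⟨a, ha⟩ ⟨b, hb⟩).map
    (⟨Subtype.val, fun {x y} h => ⟨h, x.2, y.2⟩⟩ :
      G.induce {v | v ∉ S} →g res G {v | v ∉ S})

end Pool.Agent.Lib.MP_0a7691_co.CE
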